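import Mathlib
import Pool.Agent.MP_3b44a3_an.Defs
import Pool.Agent.MP_3b44a3_an.Proof

namespace Pool.Agent.Results.MP_3b44a3_an.NotInner

open Pool.Agent.MP_3b44a3_an

theorem result :
    ∃ (f fc fs : Quaternion ℝ → Quaternion ℝ) (a : ℕ → Quaternion ℝ),
      SliceRegular f ∧ HasSeries f a ∧ Summable (fun n => ‖a n‖ ^ 2) ∧
      (∃ C : ℝ, ∀ q : Quaternion ℝ, ‖q‖ < 1 → ‖f q‖ ≤ C) ∧
      HasSeries fc (conjCoeff a) ∧ HasSeries fs (starCoeff (conjCoeff a) a) ∧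
      IsInner fs ∧ ¬ IsInner f ∧ ¬ IsInner fc := by
  have h1 : -qi * -qi = -1 := by rw [neg_mul_neg, qi_sq]
  have h2 : ‖-qi‖ = 1 := by rw [norm_neg, qi_norm]
  refine ⟨ex qi, ex (-qi), fun _ => 1, co qi, ex_sliceRegular _, ex_hasSeries _ qi_sq,
    summable_co _ qi_norm, ⟨4, ex_bounded _ qi_sq qi_norm⟩, ?_, ?_, one_inner,
    ex_not_inner _ qi_sq qi_norm, ex_not_inner _ h1 h2⟩
  · rw [conj_co _ qi_star]
    exact ex_hasSeries _ h1
  · rw [conj_co _ qi_star, funext (symm_co qi)]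
    exact one_hasSeries

end Pool.Agent.Results.MP_3b44a3_an.NotInner
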